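import Pool.Agent.Helper92.HRU.LW

/-!
# HRT at the roots of unity, B0.1: the kernel of the perturbation `X_∞(ξ)`
-/

set_option autoImplicit false

namespace Pool.Agent.Helper54.HRT

open Complex Set MeasureTheory Filter Topology
open scoped ComplexConjugate Real ENNReal
open Pool.Agent.Helper84.HRT (Weyl coc dA node XL mu8 Bd)
open Pool.Agent.Helper92.HRU

/-! ### nodes -/

theorem node_re (t : ℝ) : (node t).re = Real.cos (2 * π * t) := by
  rw [node, Complex.exp_ofReal_mul_I_re]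

theorem node_im (t : ℝ) : (node t).im = Real.sin (2 * π * t) := by
  rw [node, Complex.exp_ofReal_mul_I_im]

theorem node_cont : Continuous node := by
  unfold node
  fun_prop

/-! ### the operator `XL` -/

section general

variable {H : Type} [NormedAddCommGroup H] [InnerProductSpace ℂ H] [CompleteSpace H]

theorem XL_integrable (W : Weyl H) (μ : Measure ℝ) [IsFiniteMeasure μ] {M : ℝ} {ξ : ℝ → ℂ}
    (hξ : Bd μ M ξ) (f : H) : Integrable (fun t => ξ t • W.U (node t) f) μ := by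
  refine Integrable.of_bound (C := M * ‖f‖) ?_ ?_
  · exact hξ.meas.aestronglyMeasurable.smul
      ((W.cont f).comp node_cont).aestronglyMeasurable
  · filter_upwards [hξ.bd] with t ht
    rw [norm_smul, W.norm_U]
    exact mul_le_mul_of_nonneg_right ht (norm_nonneg _)

theorem XL_apply (W : Weyl H) (μ : Measure ℝ) [IsFiniteMeasure μ] {M : ℝ} {ξ : ℝ → ℂ}
    (hξ : Bd μ M ξ) (f : H) : XL W μ ξ f = ∫ t, ξ t • W.U (node t) f ∂μ := by
  have hex : ∃ T : H →L[ℂ] H, ∀ f, T f = ∫ t, ξ t • W.U (node t) f ∂μ := by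
    refine ⟨LinearMap.mkContinuous
      { toFun := fun f => ∫ t, ξ t • W.U (node t) f ∂μ
        map_add' := fun f g => by
          rw [← integral_add (XL_integrable W μ hξ f) (XL_integrable W μ hξ g)]
          refine integral_congr_ae (ae_of_all _ fun t => ?_)
          simp only [map_add, smul_add]
        map_smul' := fun c f => by
          rw [RingHom.id_apply, ← integral_smul]
          refine integral_congr_ae (ae_of_all _ fun t => ?_)
          simp only [map_smul]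
          rw [smul_comm] } (M * μ.real univ) ?_, fun f => rfl⟩
    intro f
    refine (norm_integral_le_of_norm_le_const (C := M * ‖f‖) ?_).trans (le_of_eq ?_)
    · filter_upwards [hξ.bd] with t ht
      rw [norm_smul, W.norm_U]
      exact mul_le_mul_of_nonneg_right ht (norm_nonneg _)
    · ring
  exact Classical.epsilon_spec hex f

theorem inner_XL (W : Weyl H) (μ : Measure ℝ) [IsFiniteMeasure μ] {M : ℝ} {ξ : ℝ → ℂ}
    (hξ : Bd μ M ξ) (c f : H) :
    inner ℂ c (XL W μ ξ f) = ∫ t, inner ℂ c (ξ t • W.U (node t) f) ∂μ := by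
  rw [XL_apply W μ hξ, integral_inner (XL_integrable W μ hξ f)]

end general

/-! ### pointwise form -/

/-- the integrand -/
noncomputable def FP (ξ : ℝ → ℂ) (f : L2) (P t : ℝ) : ℂ :=
  ξ t * (chr (node t) P * f (P - 2 * (node t).im))

theorem W_node_coe (ξ : ℝ → ℂ) (f : L2) (t : ℝ) :
    ((ξ t • W (node t) f : L2) : ℝ → ℂ) =ᵐ[volume] fun P => FP ξ f P t := by
  filter_upwards [Lp.coeFn_smul (ξ t) (W (node t) f), W_coe (node t) f] with P h1 h2
  rw [h1, Pi.smul_apply, h2, smul_eq_mul, FP]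

theorem measurable_FP {ξ : ℝ → ℂ} (hξ : Measurable ξ) (f : L2) :
    Measurable fun p : ℝ × ℝ => FP ξ f p.2 p.1 := by
  have hf : Measurable (f : ℝ → ℂ) := (Lp.stronglyMeasurable f).measurable
  have hn : Measurable node := node_cont.measurable
  have h1 : Measurable fun p : ℝ × ℝ => p.2 - 2 * (node p.1).im := by fun_prop
  have h2 : Measurable fun p : ℝ × ℝ => chr (node p.1) p.2 := by
    unfold chr
    fun_prop
  unfold FP
  exact (hξ.comp measurable_fst).mul (h2.mul (hf.comp h1))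

theorem norm_FP (ξ : ℝ → ℂ) (f : L2) (P t : ℝ) :
    ‖FP ξ f P t‖ = ‖ξ t‖ * ‖f (P - 2 * (node t).im)‖ := by
  rw [FP, norm_mul, norm_mul, norm_chr, one_mul]

theorem integrable_sq_comp (f : L2) (c : ℝ) :
    Integrable (fun P => ‖f (P - c)‖ ^ 2) volume ∧ ∫ P, ‖f (P - c)‖ ^ 2 = ∫ P, ‖f P‖ ^ 2 := by
  have h0 := (memLp_two_iff_integrable_sq_norm (Lp.aestronglyMeasurable f)).mp (Lp.memLp f)
  exact ⟨h0.comp_sub_right c, integral_sub_right_eq_self (fun P => ‖f P‖ ^ 2) c⟩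

theorem integrable_FP {ξ : ℝ → ℂ} (hξ : Measurable ξ) {M : ℝ} (hM : ∀ᵐ t : ℝ, ‖ξ t‖ ≤ M)
    (f : L2) {s : Set ℝ} (hs : volume s < ⊤) :
    Integrable (fun p : ℝ × ℝ => FP ξ f p.2 p.1)
      ((volume.restrict (Ico 0 1)).prod (volume.restrict s)) := by
  have : IsFiniteMeasure (volume.restrict s) := ⟨by rwa [Measure.restrict_apply_univ]⟩
  have hMt : ∀ᵐ t ∂(volume.restrict (Ico (0 : ℝ) 1)), ‖ξ t‖ ≤ M := ae_restrict_of_ae hM
  have hI : ∀ t, Integrable (fun P => FP ξ f P t) (volume.restrict s) := by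
    intro t
    have h1 : Integrable ((ξ t • W (node t) f : L2) : ℝ → ℂ) (volume.restrict s) :=
      ((Lp.memLp (ξ t • W (node t) f)).restrict s).integrable (by norm_num)
    exact h1.congr (ae_restrict_of_ae (W_node_coe ξ f t))
  rw [integrable_prod_iff (measurable_FP hξ f).aestronglyMeasurable]
  refine ⟨ae_of_all _ fun t => hI t, ?_⟩
  refine Integrable.of_bound (C := M * ((volume.restrict s).real univ + ∫ P, ‖f P‖ ^ 2)) ?_ ?_
  · exact ((measurable_FP hξ f).norm.stronglyMeasurable.integral_prod_right').aestronglyMeasurable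
  · filter_upwards [hMt] with t ht
    have hM0 : 0 ≤ M := (norm_nonneg _).trans ht
    rw [Real.norm_eq_abs, abs_of_nonneg (integral_nonneg fun P => norm_nonneg _)]
    have h3 := integrable_sq_comp f (2 * (node t).im)
    have h4 : ∀ P, ‖FP ξ f P t‖ ≤ M * (1 + ‖f (P - 2 * (node t).im)‖ ^ 2) := by
      intro P
      rw [norm_FP]
      refine mul_le_mul ht ?_ (norm_nonneg _) hM0
      nlinarith [sq_nonneg (‖f (P - 2 * (node t).im)‖ - 1), norm_nonneg (f (P - 2 * (node t).im))]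
    have h5 : Integrable (fun P => M * (1 + ‖f (P - 2 * (node t).im)‖ ^ 2))
        (volume.restrict s) := ((integrable_const 1).add h3.1.restrict).const_mul M
    calc ∫ P in s, ‖FP ξ f P t‖ ≤ ∫ P in s, M * (1 + ‖f (P - 2 * (node t).im)‖ ^ 2) :=
          integral_mono (hI t).norm h5 h4
      _ = M * ((volume.restrict s).real univ + ∫ P in s, ‖f (P - 2 * (node t).im)‖ ^ 2) := by
          rw [integral_const_mul, integral_add (integrable_const 1) h3.1.restrict,
            integral_const, smul_eq_mul, mul_one]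
      _ ≤ M * ((volume.restrict s).real univ + ∫ P, ‖f P‖ ^ 2) := by
          refine mul_le_mul_of_nonneg_left ?_ hM0
          rw [← h3.2]
          exact add_le_add le_rfl (setIntegral_le_integral h3.1 (ae_of_all _ fun P => by positivity))

theorem bd_mu8 {ξ : ℝ → ℂ} (hξ : Measurable ξ) {M : ℝ} (hM : ∀ᵐ t : ℝ, ‖ξ t‖ ≤ M) :
    Bd mu8 M ξ := ⟨hξ, ae_restrict_of_ae hM⟩

instance : IsFiniteMeasure mu8 := by unfold mu8; infer_instance

theorem XL_pointwise {ξ : ℝ → ℂ} (hξ : Measurable ξ) {M : ℝ} (hM : ∀ᵐ t : ℝ, ‖ξ t‖ ≤ M)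
    (f : L2) : (XL LW mu8 ξ f : ℝ → ℂ) =ᵐ[volume] fun P => ∫ t in Ico (0 : ℝ) 1, FP ξ f P t := by
  refine ae_eq_of_forall_setIntegral_eq_of_sigmaFinite ?_ ?_ ?_
  · intro s hs hμ
    have : IsFiniteMeasure (volume.restrict s) := ⟨by rwa [Measure.restrict_apply_univ]⟩
    exact ((Lp.memLp (XL LW mu8 ξ f)).restrict s).integrable (by norm_num)
  · intro s hs hμ
    exact (integrable_FP hξ hM f hμ).integral_prod_right
  · intro s hs hμ
    have h1 : ∫ P in s, (XL LW mu8 ξ f : ℝ → ℂ) P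
        = inner ℂ (indicatorConstLp 2 hs hμ.ne (1 : ℂ)) (XL LW mu8 ξ f) :=
      (L2.inner_indicatorConstLp_one hs hμ.ne _).symm
    rw [h1, inner_XL LW mu8 (bd_mu8 hξ hM)]
    have h2 : ∀ t, inner ℂ (indicatorConstLp 2 hs hμ.ne (1 : ℂ)) (ξ t • LW.U (node t) f)
        = ∫ P in s, FP ξ f P t := by
      intro t
      rw [L2.inner_indicatorConstLp_one hs hμ.ne]
      exact setIntegral_congr_ae hs (by
        filter_upwards [W_node_coe ξ f t] with P hP _
        exact hP)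
    simp_rw [h2]
    exact integral_integral_swap (f := fun t P => FP ξ f P t) (integrable_FP hξ hM f hμ)

/-! ### change of variables -/

/-- `c(u) = √(1 - u²/4)` -/
noncomputable def cc (u : ℝ) : ℝ := √(1 - u ^ 2 / 4)

/-- the kernel function of `X_∞(ξ)` -/
noncomputable def kk (ξ : ℝ → ℂ) (u : ℝ) : ℂ :=
  ξ (Real.arcsin (u / 2) / (2 * π)) / ((4 * π * cc u : ℝ) : ℂ)

theorem cc_neg (u : ℝ) : cc (-u) = cc u := by
  unfold cc
  congr 2
  ring

theorem cc_sin {t : ℝ} (h1 : -(1 / 4) < t) (h2 : t < 1 / 4) :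
    cc (2 * Real.sin (2 * π * t)) = Real.cos (2 * π * t) := by
  have hp := Real.pi_pos
  have hc : 0 ≤ Real.cos (2 * π * t) := by
    apply Real.cos_nonneg_of_mem_Icc
    constructor <;> nlinarith
  unfold cc
  have h3 : 1 - (2 * Real.sin (2 * π * t)) ^ 2 / 4 = Real.cos (2 * π * t) ^ 2 := by
    have := Real.sin_sq_add_cos_sq (2 * π * t)
    nlinarith
  rw [h3, Real.sqrt_sq hc]

theorem arcsin_sin' {t : ℝ} (h1 : -(1 / 4) < t) (h2 : t < 1 / 4) :
    Real.arcsin (2 * Real.sin (2 * π * t) / 2) / (2 * π) = t := by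
  have hp := Real.pi_pos
  have h3 : 2 * Real.sin (2 * π * t) / 2 = Real.sin (2 * π * t) := by ring
  rw [h3, Real.arcsin_sin (by nlinarith) (by nlinarith)]
  field_simp

theorem cos_pos' {t : ℝ} (h1 : -(1 / 4) < t) (h2 : t < 1 / 4) : 0 < Real.cos (2 * π * t) := by
  have hp := Real.pi_pos
  apply Real.cos_pos_of_mem_Ioo
  constructor <;> nlinarith

theorem kk_sin (ξ : ℝ → ℂ) {t : ℝ} (h1 : -(1 / 4) < t) (h2 : t < 1 / 4) :
    ((4 * π * Real.cos (2 * π * t) : ℝ) : ℂ) * kk ξ (2 * Real.sin (2 * π * t)) = ξ t := by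
  have hp := Real.pi_pos
  have hc := cos_pos' h1 h2
  have h3 : ((4 * π * Real.cos (2 * π * t) : ℝ) : ℂ) ≠ 0 := by
    rw [Complex.ofReal_ne_zero]
    positivity
  rw [kk, cc_sin h1 h2, arcsin_sin' h1 h2, mul_comm, div_mul_cancel₀ _ h3]

theorem image_sin {σ : ℝ} (hσ : σ = 1 ∨ σ = -1) :
    (fun t : ℝ => σ * (2 * Real.sin (2 * π * t))) '' Ioo (-(1 / 4)) (1 / 4) = Ioo (-2) 2 := by
  have hp := Real.pi_pos
  have hσ2 : σ * σ = 1 := by rcases hσ with h | h <;> rw [h] <;> norm_num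
  ext u
  constructor
  · rintro ⟨t, ⟨h1, h2⟩, rfl⟩
    have h3 : Real.sin (2 * π * t) < 1 := by
      rw [← Real.sin_pi_div_two]
      exact Real.strictMonoOn_sin ⟨by nlinarith, by nlinarith⟩ ⟨by linarith, le_rfl⟩ (by nlinarith)
    have h4 : -1 < Real.sin (2 * π * t) := by
      have h40 : Real.sin (-(π / 2)) = -1 := by rw [Real.sin_neg, Real.sin_pi_div_two]
      rw [← h40]
      exact Real.strictMonoOn_sin ⟨by linarith, by linarith⟩ ⟨by nlinarith, by nlinarith⟩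
        (by nlinarith)
    rcases hσ with h | h <;> subst h <;> constructor <;> simp only <;> linarith
  · rintro ⟨h1, h2⟩
    have h5 : σ * u < 2 := by rcases hσ with h | h <;> subst h <;> linarith
    have h6 : -2 < σ * u := by rcases hσ with h | h <;> subst h <;> linarith
    have h3 : Real.arcsin (σ * u / 2) < π / 2 := Real.arcsin_lt_pi_div_two.2 (by linarith)
    have h4 : -(π / 2) < Real.arcsin (σ * u / 2) := Real.neg_pi_div_two_lt_arcsin.2 (by linarith)
    refine ⟨Real.arcsin (σ * u / 2) / (2 * π), ⟨?_, ?_⟩, ?_⟩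
    · rw [lt_div_iff₀ (by positivity)]
      linarith
    · rw [div_lt_iff₀ (by positivity)]
      linarith
    · simp only
      have h7 : 2 * π * (Real.arcsin (σ * u / 2) / (2 * π)) = Real.arcsin (σ * u / 2) := by
        field_simp
      rw [h7, Real.sin_arcsin (by linarith) (by linarith)]
      have : σ * (2 * (σ * u / 2)) = (σ * σ) * u := by ring
      rw [this, hσ2, one_mul]

theorem injOn_sin {σ : ℝ} (hσ : σ = 1 ∨ σ = -1) :
    InjOn (fun t : ℝ => σ * (2 * Real.sin (2 * π * t))) (Ioo (-(1 / 4)) (1 / 4)) := by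
  have hp := Real.pi_pos
  have hσ0 : σ ≠ 0 := by rcases hσ with h | h <;> rw [h] <;> norm_num
  intro t ht t' ht' h
  simp only at h
  have h1 : Real.sin (2 * π * t) = Real.sin (2 * π * t') := by
    have := mul_left_cancel₀ hσ0 h
    linarith
  have h2 := Real.injOn_sin ⟨by nlinarith [ht.1], by nlinarith [ht.2]⟩
    ⟨by nlinarith [ht'.1], by nlinarith [ht'.2]⟩ h1
  have h3 : 2 * π ≠ 0 := by positivity
  exact mul_left_cancel₀ h3 h2

theorem deriv_sin' (σ t : ℝ) : HasDerivAt (fun t : ℝ => σ * (2 * Real.sin (2 * π * t)))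
    (σ * (4 * π * Real.cos (2 * π * t))) t := by
  have h1 : HasDerivAt (fun t : ℝ => 2 * π * t) (2 * π) t := by
    simpa using (hasDerivAt_id t).const_mul (2 * π)
  have h2 := ((h1.sin).const_mul 2).const_mul σ
  refine h2.congr_deriv ?_
  ring

theorem abs_deriv' {σ : ℝ} (hσ : σ = 1 ∨ σ = -1) {t : ℝ} (ht : t ∈ Ioo (-(1 / 4) : ℝ) (1 / 4)) :
    |σ * (4 * π * Real.cos (2 * π * t))| = 4 * π * Real.cos (2 * π * t) := by
  have hp := Real.pi_pos
  have hc := cos_pos' ht.1 ht.2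
  have : |σ| = 1 := by rcases hσ with h | h <;> rw [h] <;> norm_num
  rw [abs_mul, this, one_mul, abs_of_pos (by positivity)]

theorem cov {σ : ℝ} (hσ : σ = 1 ∨ σ = -1) (g : ℝ → ℂ) :
    ∫ u in Ioo (-2 : ℝ) 2, g u = ∫ t in Ioo (-(1 / 4) : ℝ) (1 / 4),
      ((4 * π * Real.cos (2 * π * t) : ℝ) : ℂ) * g (σ * (2 * Real.sin (2 * π * t))) := by
  rw [← image_sin hσ, integral_image_eq_integral_abs_deriv_smul measurableSet_Ioo
    (fun t _ => (deriv_sin' σ t).hasDerivWithinAt) (injOn_sin hσ)]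
  refine setIntegral_congr_fun measurableSet_Ioo fun t ht => ?_
  rw [abs_deriv' hσ ht, Complex.real_smul]

theorem cov_int {σ : ℝ} (hσ : σ = 1 ∨ σ = -1) (g : ℝ → ℂ) :
    IntegrableOn g (Ioo (-2 : ℝ) 2) ↔ IntegrableOn (fun t : ℝ =>
      ((4 * π * Real.cos (2 * π * t) : ℝ) : ℂ) * g (σ * (2 * Real.sin (2 * π * t))))
      (Ioo (-(1 / 4) : ℝ) (1 / 4)) := by
  rw [← image_sin hσ, integrableOn_image_iff_integrableOn_abs_deriv_smul measurableSet_Ioo
    (fun t _ => (deriv_sin' σ t).hasDerivWithinAt) (injOn_sin hσ)]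
  refine integrableOn_congr_fun (fun t ht => ?_) measurableSet_Ioo
  rw [abs_deriv' hσ ht, Complex.real_smul]

/-! ### periodicity -/

theorem split_period (F : ℝ → ℂ) (hF : IntegrableOn F (Ico 0 1))
    (hper : ∀ᵐ t : ℝ, F (t + 1) = F t) :
    IntegrableOn F (Ioo (-(1 / 4) : ℝ) (1 / 4)) ∧
    IntegrableOn (fun t => F (t + 1 / 2)) (Ioo (-(1 / 4) : ℝ) (1 / 4)) ∧
    ∫ t in Ico (0 : ℝ) 1, F t = (∫ t in Ioo (-(1 / 4) : ℝ) (1 / 4), F t) +
      ∫ t in Ioo (-(1 / 4) : ℝ) (1 / 4), F (t + 1 / 2) := by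
  have h01 : IntervalIntegrable F volume 0 1 := by
    rw [intervalIntegrable_iff_integrableOn_Ico_of_le (by norm_num)]
    exact hF
  have ha : IntervalIntegrable F volume 0 (1 / 4) := h01.mono_set (by
    rw [uIcc_of_le (by norm_num), uIcc_of_le (by norm_num)]
    exact Icc_subset_Icc (by norm_num) (by norm_num))
  have hb : IntervalIntegrable F volume (1 / 4) (3 / 4) := h01.mono_set (by
    rw [uIcc_of_le (by norm_num), uIcc_of_le (by norm_num)]
    exact Icc_subset_Icc (by norm_num) (by norm_num))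
  have hc : IntervalIntegrable F volume (3 / 4) 1 := h01.mono_set (by
    rw [uIcc_of_le (by norm_num), uIcc_of_le (by norm_num)]
    exact Icc_subset_Icc (by norm_num) (by norm_num))
  have hd : IntervalIntegrable (fun t => F (t + 1)) volume (-(1 / 4)) 0 := by
    have := hc.comp_add_right 1
    norm_num at this
    convert this using 2
  have he : IntervalIntegrable F volume (-(1 / 4)) 0 := by
    refine hd.congr_ae ?_
    exact ae_restrict_of_ae hper
  have hf : IntervalIntegrable F volume (-(1 / 4)) (1 / 4) := he.trans ha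
  have hg : IntervalIntegrable (fun t => F (t + 1 / 2)) volume (-(1 / 4)) (1 / 4) := by
    have := hb.comp_add_right (1 / 2)
    norm_num at this
    convert this using 2 <;> norm_num
  have e1 : ∫ t in (3 / 4 : ℝ)..1, F t = ∫ t in (-(1 / 4) : ℝ)..0, F t := by
    have h1 := intervalIntegral.integral_comp_add_right (a := -(1 / 4)) (b := 0) F (1 : ℝ)
    have h2 : (-(1 / 4) : ℝ) + 1 = 3 / 4 := by norm_num
    rw [h2, zero_add] at h1
    rw [← h1]
    exact intervalIntegral.integral_congr_ae (by filter_upwards [hper] with t ht _; exact ht)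
  have e2 : ∫ t in (1 / 4 : ℝ)..(3 / 4), F t = ∫ t in (-(1 / 4) : ℝ)..(1 / 4), F (t + 1 / 2) := by
    rw [intervalIntegral.integral_comp_add_right]
    norm_num
  have e3 : ∫ t in (0 : ℝ)..1, F t = (∫ t in (-(1 / 4) : ℝ)..(1 / 4), F t) +
      ∫ t in (-(1 / 4) : ℝ)..(1 / 4), F (t + 1 / 2) := by
    rw [← e2, ← intervalIntegral.integral_add_adjacent_intervals he ha, ← e1,
      ← intervalIntegral.integral_add_adjacent_intervals (ha.trans hb) hc,
      ← intervalIntegral.integral_add_adjacent_intervals ha hb]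
    ring
  have f1 : ∀ (G : ℝ → ℂ), ∫ t in (-(1 / 4) : ℝ)..(1 / 4), G t
      = ∫ t in Ioo (-(1 / 4) : ℝ) (1 / 4), G t := by
    intro G
    rw [intervalIntegral.integral_of_le (by norm_num), integral_Ioc_eq_integral_Ioo]
  refine ⟨?_, ?_, ?_⟩
  · rw [← intervalIntegrable_iff_integrableOn_Ioo_of_le (by norm_num)]
    exact hf
  · rw [← intervalIntegrable_iff_integrableOn_Ioo_of_le (by norm_num)]
    exact hg
  · rw [← f1, ← f1, ← e3, intervalIntegral.integral_of_le (by norm_num),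
      integral_Ioc_eq_integral_Ioo, integral_Ico_eq_integral_Ioo]

/-! ### the kernel -/

/-- the kernel of `X_∞(ξ)` at `(x, x - u)` -/
noncomputable def ker1 (ξ : ℝ → ℂ) (x u : ℝ) : ℂ :=
  kk ξ u * exp (I * ((cc u * (x - u / 2) : ℝ) : ℂ))

/-- the second half of the kernel of `X_∞(ξ)` at `(x, x - u)` -/
noncomputable def ker2 (ξ : ℝ → ℂ) (x u : ℝ) : ℂ :=
  conj (kk ξ (-u)) * exp (-(I * ((cc u * (x - u / 2) : ℝ) : ℂ)))

theorem FP_eq1 (ξ : ℝ → ℂ) (f : L2) (P : ℝ) {t : ℝ} (ht : t ∈ Ioo (-(1 / 4) : ℝ) (1 / 4)) :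
    ((4 * π * Real.cos (2 * π * t) : ℝ) : ℂ) *
      (ker1 ξ P (1 * (2 * Real.sin (2 * π * t))) * f (P - 1 * (2 * Real.sin (2 * π * t))))
      = FP ξ f P t := by
  rw [one_mul, ker1, cc_sin ht.1 ht.2, FP, node_im, chr, node_im, node_re, ← mul_assoc,
    ← mul_assoc, kk_sin ξ ht.1 ht.2, ← mul_assoc]
  congr 6
  ring

theorem FP_eq2 (ξ : ℝ → ℂ) (f : L2) (P : ℝ) {t : ℝ} (ht : t ∈ Ioo (-(1 / 4) : ℝ) (1 / 4))
    (hξ : ξ (t + 1 / 2) = conj (ξ t)) :
    ((4 * π * Real.cos (2 * π * t) : ℝ) : ℂ) *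
      (ker2 ξ P (-1 * (2 * Real.sin (2 * π * t))) * f (P - -1 * (2 * Real.sin (2 * π * t))))
      = FP ξ f P (t + 1 / 2) := by
  have h1 : 2 * π * (t + 1 / 2) = 2 * π * t + π := by ring
  have h2 : ((4 * π * Real.cos (2 * π * t) : ℝ) : ℂ) * conj (kk ξ (2 * Real.sin (2 * π * t)))
      = conj (ξ t) := by
    rw [← kk_sin ξ ht.1 ht.2, map_mul, Complex.conj_ofReal]
  have h3 : -1 * (2 * Real.sin (2 * π * t)) = -(2 * Real.sin (2 * π * t)) := by ring
  rw [h3, ker2, neg_neg, cc_neg, cc_sin ht.1 ht.2, FP, node_im, chr, node_im, node_re, h1,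
    Real.sin_add_pi, Real.cos_add_pi, ← mul_assoc, ← mul_assoc, h2, hξ, ← mul_assoc]
  congr 2
  · congr 2
    push_cast
    ring
  · ring

theorem FP_period {ξ : ℝ → ℂ} (hsym : ∀ᵐ t : ℝ, ξ (t + 1 / 2) = conj (ξ t)) (f : L2) (P : ℝ) :
    ∀ᵐ t : ℝ, FP ξ f P (t + 1) = FP ξ f P t := by
  have h2 : ∀ᵐ t : ℝ, ξ (t + 1 / 2 + 1 / 2) = conj (ξ (t + 1 / 2)) :=
    (measurePreserving_add_right volume (1 / 2 : ℝ)).quasiMeasurePreserving.ae hsym
  filter_upwards [hsym, h2] with t h3 h4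
  have h5 : ξ (t + 1) = ξ t := by
    have : t + 1 / 2 + 1 / 2 = t + 1 := by ring
    rw [this] at h4
    rw [h4, h3, Complex.conj_conj]
  have h6 : node (t + 1) = node t := by
    have h7 : 2 * π * (t + 1) = 2 * π * t + 2 * π := by ring
    apply Complex.ext
    · rw [node_re, node_re, h7, Real.cos_add_two_pi]
    · rw [node_im, node_im, h7, Real.sin_add_two_pi]
  rw [FP, FP, h5, h6]

/-- B0.1: the kernel of `X_∞(ξ)`, with integrability. -/
theorem XL_kernel' {ξ : ℝ → ℂ} (hξ : Measurable ξ) {M : ℝ} (hM : ∀ᵐ t : ℝ, ‖ξ t‖ ≤ M)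
    (hsym : ∀ᵐ t : ℝ, ξ (t + 1 / 2) = conj (ξ t)) (f : L2) :
    ∀ᵐ x : ℝ, IntegrableOn (fun u => ker1 ξ x u * f (x - u)) (Ioo (-2 : ℝ) 2) ∧
      IntegrableOn (fun u => ker2 ξ x u * f (x - u)) (Ioo (-2 : ℝ) 2) ∧
      (XL LW mu8 ξ f : ℝ → ℂ) x = (∫ u in Ioo (-2 : ℝ) 2, ker1 ξ x u * f (x - u)) +
        ∫ u in Ioo (-2 : ℝ) 2, ker2 ξ x u * f (x - u) := by
  have hint : ∀ᵐ x : ℝ, IntegrableOn (fun t => FP ξ f x t) (Ico (0 : ℝ) 1) := by
    have h1 : ∀ n : ℕ, ∀ᵐ x : ℝ, x ∈ Icc (-(n : ℝ)) n →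
        IntegrableOn (fun t => FP ξ f x t) (Ico (0 : ℝ) 1) := by
      intro n
      have h2 := (integrable_FP hξ hM f (s := Icc (-(n : ℝ)) n) (by
        rw [Real.volume_Icc]
        exact ENNReal.ofReal_lt_top)).prod_left_ae
      exact (ae_restrict_iff' measurableSet_Icc).1 h2
    filter_upwards [ae_all_iff.2 h1] with x hx
    obtain ⟨n, hn⟩ := exists_nat_ge |x|
    exact hx n ⟨by linarith [neg_abs_le x], by linarith [le_abs_self x]⟩
  filter_upwards [hint, XL_pointwise hξ hM f] with x hx1 hx2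
  obtain ⟨h1, h2, h3⟩ := split_period (fun t => FP ξ f x t) hx1 (FP_period hsym f x)
  have e2 : ∀ᵐ t : ℝ, t ∈ Ioo (-(1 / 4) : ℝ) (1 / 4) →
      ((4 * π * Real.cos (2 * π * t) : ℝ) : ℂ) *
      (ker2 ξ x (-1 * (2 * Real.sin (2 * π * t))) * f (x - -1 * (2 * Real.sin (2 * π * t))))
      = FP ξ f x (t + 1 / 2) := by
    filter_upwards [hsym] with t ht ht2
    exact FP_eq2 ξ f x ht2 ht
  refine ⟨?_, ?_, ?_⟩
  · rw [cov_int (Or.inl rfl) (fun u => ker1 ξ x u * f (x - u))]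
    exact (integrableOn_congr_fun (fun t ht => FP_eq1 ξ f x ht) measurableSet_Ioo).2 h1
  · rw [cov_int (Or.inr rfl) (fun u => ker2 ξ x u * f (x - u))]
    refine h2.congr ?_
    rw [Filter.EventuallyEq, ae_restrict_iff' measurableSet_Ioo]
    filter_upwards [e2] with t ht ht2
    exact (ht ht2).symm
  · rw [hx2, h3, cov (Or.inl rfl) (fun u => ker1 ξ x u * f (x - u)),
      cov (Or.inr rfl) (fun u => ker2 ξ x u * f (x - u))]
    congr 1
    · exact setIntegral_congr_fun measurableSet_Ioo fun t ht => (FP_eq1 ξ f x ht).symm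
    · refine setIntegral_congr_ae measurableSet_Ioo ?_
      filter_upwards [e2] with t ht ht2
      exact (ht ht2).symm

/-- B0.1: the kernel of `X_∞(ξ)`. -/
theorem XL_kernel {ξ : ℝ → ℂ} (hξ : Measurable ξ) {M : ℝ} (hM : ∀ᵐ t : ℝ, ‖ξ t‖ ≤ M)
    (hsym : ∀ᵐ t : ℝ, ξ (t + 1 / 2) = conj (ξ t)) (f : L2) :
    ∀ᵐ x : ℝ, IntegrableOn (fun u => (kk ξ u * exp (I * ((cc u * (x - u / 2) : ℝ) : ℂ)) +
        conj (kk ξ (-u)) * exp (-(I * ((cc u * (x - u / 2) : ℝ) : ℂ)))) * f (x - u))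
        (Ioo (-2 : ℝ) 2) ∧
      (XL LW mu8 ξ f : ℝ → ℂ) x = ∫ u in Ioo (-2 : ℝ) 2,
        (kk ξ u * exp (I * ((cc u * (x - u / 2) : ℝ) : ℂ)) +
        conj (kk ξ (-u)) * exp (-(I * ((cc u * (x - u / 2) : ℝ) : ℂ)))) * f (x - u) := by
  filter_upwards [XL_kernel' hξ hM hsym f] with x hx
  obtain ⟨h1, h2, h3⟩ := hx
  have h4 : (fun u => (kk ξ u * exp (I * ((cc u * (x - u / 2) : ℝ) : ℂ)) +
        conj (kk ξ (-u)) * exp (-(I * ((cc u * (x - u / 2) : ℝ) : ℂ)))) * f (x - u))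
      = fun u => ker1 ξ x u * f (x - u) + ker2 ξ x u * f (x - u) := by
    funext u
    rw [ker1, ker2, add_mul]
  rw [h4]
  exact ⟨h1.add h2, by rw [h3, integral_add h1 h2]⟩

theorem kk_measurable {ξ : ℝ → ℂ} (hξ : Measurable ξ) : Measurable (kk ξ) := by
  unfold kk cc
  have h1 : Measurable fun u : ℝ => ξ (Real.arcsin (u / 2) / (2 * π)) :=
    hξ.comp ((Real.measurable_arcsin.comp (measurable_id.div_const 2)).div_const (2 * π))
  exact h1.div (by fun_prop)

/-- the size of the kernel function -/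
theorem kk_bound {ξ : ℝ → ℂ} {φ : ℝ → ℝ}
    (h : ∀ᵐ t : ℝ, ‖ξ t‖ ≤ |Real.cos (2 * π * t)| * φ (2 * Real.sin (2 * π * t))) :
    ∀ᵐ u : ℝ, u ∈ Ioo (-2 : ℝ) 2 → ‖kk ξ u‖ ≤ φ u / (4 * π) := by
  have hp := Real.pi_pos
  set N : Set ℝ := {t | ¬ ‖ξ t‖ ≤ |Real.cos (2 * π * t)| * φ (2 * Real.sin (2 * π * t))} with hN
  have hN0 : volume N = 0 := h
  have hN1 : volume ((fun t : ℝ => 1 * (2 * Real.sin (2 * π * t))) '' N) = 0 :=
    addHaar_image_eq_zero_of_differentiableOn_of_addHaar_eq_zero volume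
      (fun t _ => (deriv_sin' 1 t).differentiableAt.differentiableWithinAt) hN0
  have h2 : ∀ᵐ u : ℝ, u ∉ (fun t : ℝ => 1 * (2 * Real.sin (2 * π * t))) '' N :=
    measure_eq_zero_iff_ae_notMem.1 hN1
  filter_upwards [h2] with u hu hu2
  rw [← image_sin (Or.inl rfl)] at hu2
  obtain ⟨t, ht, rfl⟩ := hu2
  have h3 : ‖ξ t‖ ≤ |Real.cos (2 * π * t)| * φ (2 * Real.sin (2 * π * t)) := by
    by_contra h4
    exact hu ⟨t, h4, rfl⟩
  have hc := cos_pos' ht.1 ht.2
  simp only [one_mul]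
  have h5 := kk_sin ξ ht.1 ht.2
  have h6 : 4 * π * Real.cos (2 * π * t) * ‖kk ξ (2 * Real.sin (2 * π * t))‖ = ‖ξ t‖ := by
    rw [← h5, norm_mul, Complex.norm_real, Real.norm_eq_abs, abs_of_pos (by positivity)]
  rw [abs_of_pos hc] at h3
  rw [le_div_iff₀ (by positivity)]
  have h7 : Real.cos (2 * π * t) * (‖kk ξ (2 * Real.sin (2 * π * t))‖ * (4 * π)) ≤
      Real.cos (2 * π * t) * φ (2 * Real.sin (2 * π * t)) := by
    calc _ = 4 * π * Real.cos (2 * π * t) * ‖kk ξ (2 * Real.sin (2 * π * t))‖ := by ring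
      _ ≤ _ := by rw [h6]; exact h3
  exact le_of_mul_le_mul_left h7 hc

end Pool.Agent.Helper54.HRT
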